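import Mathlib

set_option autoImplicit false

open Equiv

namespace Pool.Agent.Results.MP_5c8dfa_al.NoBound

/-- Every subset of a three-point set is preserved by an odd permutation. -/
theorem odd_stab (p : Fin 3 → Bool) :
    ∃ s : Perm (Fin 3), Perm.sign s = -1 ∧ ∀ x, p (s x) = p x := by
  revert p
  decide

/-- The action of `S₃ ^ m` on `m` disjoint copies of a three-point set. -/
def act (m : ℕ) : (Fin m → Perm (Fin 3)) →* Perm (Fin m × Fin 3) where
  toFun g := Equiv.prodCongrRight g
  map_one' := by ext x <;> simp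
  map_mul' g h := by ext x <;> simp

theorem act_injective (m : ℕ) : Function.Injective (act m) := by
  intro g h hgh
  funext i
  ext x
  have := congrArg (fun e : Perm (Fin m × Fin 3) => (e (i, x)).2) hgh
  simpa [act] using congrArg Fin.val this

/-- The product of the sign maps. -/
def sgn (m : ℕ) : (Fin m → Perm (Fin 3)) →* (Fin m → ℤˣ) where
  toFun g := fun i => Perm.sign (g i)
  map_one' := by ext i; simp
  map_mul' g h := by ext i; simp

/-- For every `C` there are a finite set `Ω`, a permutation group `G` on `Ω` and an epimorphism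
`φ` of `G` onto a group `H` with at least `C` elements such that the setwise stabilizer of every
subset `Δ` of `Ω` is mapped onto `H`. -/
theorem result (C : ℕ) :
    ∃ (Ω : Type) (_ : Finite Ω) (G : Subgroup (Perm Ω)) (H : Type) (_ : Group H) (_ : Finite H)
      (φ : G →* H), Function.Surjective φ ∧ C ≤ Nat.card H ∧
      ∀ Δ : Set Ω, ∀ h : H, ∃ g : G, (g : Perm Ω) '' Δ = Δ ∧ φ g = h := by
  classical
  have key : ∀ (Δ : Set (Fin C × Fin 3)) (h : Fin C → ℤˣ), ∃ g : Fin C → Perm (Fin 3),
      (act C g) '' Δ = Δ ∧ sgn C g = h := by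
    intro Δ h
    have h1 : ∀ i : Fin C, ∃ s : Perm (Fin 3), Perm.sign s = h i ∧
        ∀ x, ((i, s x) ∈ Δ ↔ (i, x) ∈ Δ) := by
      intro i
      rcases Int.units_eq_one_or (h i) with h2 | h2
      · exact ⟨1, by simp [h2], fun x => by simp⟩
      · obtain ⟨s, hs1, hs2⟩ := odd_stab (fun x => decide ((i, x) ∈ Δ))
        refine ⟨s, by rw [hs1, h2], fun x => ?_⟩
        simpa using hs2 x
    choose g hg1 hg2 using h1
    refine ⟨g, ?_, funext hg1⟩
    rw [Equiv.image_eq_preimage_symm]
    ext ⟨i, x⟩
    have := hg2 i ((g i).symm x)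
    rw [Equiv.apply_symm_apply] at this
    simp only [Set.mem_preimage]
    rw [this]
    rfl
  let e := MonoidHom.ofInjective (act_injective C)
  refine ⟨Fin C × Fin 3, inferInstance, (act C).range, Fin C → ℤˣ, inferInstance, inferInstance,
    (sgn C).comp e.symm.toMonoidHom, ?_, ?_, ?_⟩
  · intro h
    obtain ⟨g, -, hg⟩ := key ∅ h
    exact ⟨e g, by simpa using hg⟩
  · rw [Nat.card_pi]
    simp only [Nat.card_eq_fintype_card, Fintype.card_units_int, Finset.prod_const,
      Finset.card_univ, Fintype.card_fin]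
    exact Nat.lt_two_pow_self.le
  · intro Δ h
    obtain ⟨g, hg1, hg2⟩ := key Δ h
    exact ⟨e g, hg1, by simpa using hg2⟩

end Pool.Agent.Results.MP_5c8dfa_al.NoBound
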